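import Pool.Agent.Lib.MP_305fdd_al.Su.L.First
import Pool.Agent.Lib.MP_305fdd_al.Fr.N.F.Abs

/-!
# MP_305fdd_al, surface groups, block FIN: comparison of the rings of the traces of two universal
representations

The nilpotence of a Cartier operator on an ideal of the ring of the traces does not depend on the choice
of the universal representation.
-/

set_option autoImplicit false

namespace Pool.Agent.SuFin

open Matrix Pool.Agent.FrN Pool.Agent.F2RF Pool.Agent.F2Ch Pool.Agent.SuL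

section

variable {Γ F : Type} [Group Γ] [Field F] [Algebra (ZMod 2) F]

/-- every representation over a commutative `F_2`-algebra is a specialisation of `ρ` -/
def Un (ρ : Γ →* SpecialLinearGroup (Fin 2) F) : Prop :=
  ∀ (R : Type) [CommRing R] [Algebra (ZMod 2) R] (r : Γ →* SpecialLinearGroup (Fin 2) R),
    ∃ φ : OO 2 ρ →ₐ[ZMod 2] R, ∀ g i j, φ ⟨(ρ g).1 i j, mem_OO ρ g i j⟩ = (r g).1 i j

/-- nilpotence of a Cartier operator on an ideal of the ring of the traces of `ρ` (over the field of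
the traces) -/
def NilR (ρ : Γ →* SpecialLinearGroup (Fin 2) F) : Prop :=
  ∃ (K : Type) (_ : Field K) (_ : Algebra (ZMod 2) K) (_ : Algebra K F) (T : Γ → K),
    (∀ g, (ρ g).1.trace = algebraMap K F (T g)) ∧ Frc (BB 2 T) ∧ NIL T

end

/-! ## Transport along an isomorphism of fields -/

section

variable {K K' : Type} [Field K] [Field K']

theorem mb_iso (e : K ≃+* K') {p : ℕ} {d : ℕ} {t : Fin d → K}
    {π : (Fin d → Fin p) → K → K} (h : MB p t π) :
    MB p (fun i => e (t i)) (fun a x => e (π a (e.symm x))) where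
  ne i := by
    intro h0
    exact h.ne i (e.injective (by rw [h0, map_zero]))
  pb := by
    have hw : ∀ a : Fin d → Fin p, monY (fun i => e (t i)) a = e (monY t a) := by
      intro a
      simp only [monY, map_prod, map_pow]
    constructor
    · intro f
      have h1 := congrArg e (h.pb.repr (e.symm f))
      rw [map_sum, e.apply_symm_apply] at h1
      refine Eq.trans ?_ h1
      exact Finset.sum_congr rfl fun i _ => by rw [hw, map_mul, map_pow]
    · intro a i
      have h1 := h.pb.uniq (fun j => e.symm (a j)) i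
      have h2 : e.symm (∑ j, a j ^ p * monY (fun i => e (t i)) j) =
          ∑ j, e.symm (a j) ^ p * monY t j := by
        rw [map_sum]
        exact Finset.sum_congr rfl fun j _ => by
          rw [hw, map_mul, map_pow, e.symm_apply_apply]
      change e (π i (e.symm _)) = a i
      rw [h2, h1, e.apply_symm_apply]

theorem logTy_iso (e : K ≃+* K') {Φ : K → K} (h : LogTy 2 Φ) :
    LogTy 2 (fun x => e (Φ (e.symm x))) := by
  obtain ⟨d, t, π, g, hMB, hg, hf⟩ := h
  refine ⟨d, _, _, e g, mb_iso e hMB, ?_, ?_⟩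
  · intro h0
    exact hg (e.injective (by rw [h0, map_zero]))
  · intro x
    change e (Φ (e.symm x)) = _
    rw [hf, map_mul, map_inv₀]
    rw [map_mul, e.symm_apply_apply]

theorem iter_iso (e : K ≃+* K') (Φ : K → K) (n : ℕ) (x : K') :
    (fun x => e (Φ (e.symm x)))^[n] x = e (Φ^[n] (e.symm x)) := by
  induction n generalizing x with
  | zero => simp
  | succ n ih =>
    rw [Function.iterate_succ_apply, Function.iterate_succ_apply, ih, e.symm_apply_apply]

/-- transport of nilpotence along an isomorphism of the fields of the traces -/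
theorem nil_iso [Algebra (ZMod 2) K] [Algebra (ZMod 2) K'] {Γ Γ' : Type} {T : Γ → K}
    {T' : Γ' → K'} (e : K ≃+* K') (f : Γ ≃ Γ') (he : ∀ g, e (T g) = T' (f g)) (h : NIL T) :
    NIL T' := by
  obtain ⟨Φ, hΦ, c, hc, hc0, hn⟩ := h
  have h1 : ∀ x ∈ BB 2 T, e x ∈ BB 2 T' := by
    intro x hx
    induction hx using Algebra.adjoin_induction with
    | mem x hx =>
      obtain ⟨w, rfl⟩ := hx
      rw [he]
      exact Algebra.subset_adjoin ⟨_, rfl⟩
    | algebraMap r =>
      have h2 : e.toRingHom.comp (algebraMap (ZMod 2) K) = algebraMap (ZMod 2) K' :=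
        Subsingleton.elim _ _
      have h3 : e (algebraMap (ZMod 2) K r) = algebraMap (ZMod 2) K' r :=
        congrArg (fun φ : ZMod 2 →+* K' => φ r) h2
      rw [h3]
      exact (BB 2 T').algebraMap_mem r
    | add x y _ _ hx hy => rw [map_add]; exact add_mem hx hy
    | mul x y _ _ hx hy => rw [map_mul]; exact mul_mem hx hy
  have h1' : ∀ x ∈ BB 2 T', e.symm x ∈ BB 2 T := by
    intro x hx
    induction hx using Algebra.adjoin_induction with
    | mem x hx =>
      obtain ⟨w, rfl⟩ := hx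
      have h2 : e.symm (T' w) = T (f.symm w) := by
        rw [e.symm_apply_eq, he, f.apply_symm_apply]
      rw [h2]
      exact Algebra.subset_adjoin ⟨_, rfl⟩
    | algebraMap r =>
      have h2 : e.symm.toRingHom.comp (algebraMap (ZMod 2) K') = algebraMap (ZMod 2) K :=
        Subsingleton.elim _ _
      have h3 : e.symm (algebraMap (ZMod 2) K' r) = algebraMap (ZMod 2) K r :=
        congrArg (fun φ : ZMod 2 →+* K => φ r) h2
      rw [h3]
      exact (BB 2 T).algebraMap_mem r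
    | add x y _ _ hx hy => rw [map_add]; exact add_mem hx hy
    | mul x y _ _ hx hy => rw [map_mul]; exact mul_mem hx hy
  refine ⟨_, logTy_iso e hΦ, e c, h1 c hc, fun h0 => hc0 (e.injective (by rw [h0, map_zero])), ?_⟩
  intro β hβ
  obtain ⟨n, hn⟩ := hn _ (h1' β hβ)
  refine ⟨n, ?_⟩
  rw [iter_iso, map_mul, e.symm_apply_apply, hn, map_zero]

end

/-! ## The isomorphism of the fields of the traces -/

section

variable {Γ K K' F' : Type} [Field K] [Field K'] [Algebra (ZMod 2) K] [Algebra (ZMod 2) K']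
  {T : Γ → K} {T' : Γ → K'}

theorem BB_hom_ext {R : Type} [Semiring R] {α β : BB 2 T →+* R}
    (h : ∀ g, α (bT 2 T g) = β (bT 2 T g)) : α = β := by
  ext ⟨x, hx⟩
  refine Algebra.adjoin_induction (p := fun x hx => α ⟨x, hx⟩ = β ⟨x, hx⟩) ?_ ?_ ?_ ?_ hx
  · rintro _ ⟨g, rfl⟩
    exact h g
  · intro r
    have h2 : α.comp (algebraMap (ZMod 2) (BB 2 T)) = β.comp (algebraMap (ZMod 2) (BB 2 T)) :=
      Subsingleton.elim _ _
    exact congrArg (fun φ : ZMod 2 →+* R => φ r) h2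
  · intro x y hx hy h1 h2
    have h3 : (⟨x + y, (BB 2 T).add_mem hx hy⟩ : BB 2 T) = ⟨x, hx⟩ + ⟨y, hy⟩ := rfl
    change α ⟨x + y, (BB 2 T).add_mem hx hy⟩ = β ⟨x + y, (BB 2 T).add_mem hx hy⟩
    rw [h3, map_add, map_add, h1, h2]
  · intro x y hx hy h1 h2
    have h3 : (⟨x * y, (BB 2 T).mul_mem hx hy⟩ : BB 2 T) = ⟨x, hx⟩ * ⟨y, hy⟩ := rfl
    change α ⟨x * y, (BB 2 T).mul_mem hx hy⟩ = β ⟨x * y, (BB 2 T).mul_mem hx hy⟩
    rw [h3, map_mul, map_mul, h1, h2]

/-- a homomorphism of the rings of the traces -/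
theorem exists_alpha [Field F'] (ψ : BB 2 T →+* F') (j : BB 2 T' →+* F')
    (hj : Function.Injective j) (h : ∀ g, ψ (bT 2 T g) = j (bT 2 T' g)) :
    ∃ α : BB 2 T →+* BB 2 T', ∀ g, α (bT 2 T g) = bT 2 T' g := by
  have h1 : ∀ x, ψ x ∈ j.range := by
    rintro ⟨x, hx⟩
    refine Algebra.adjoin_induction (p := fun x hx => ψ ⟨x, hx⟩ ∈ j.range) ?_ ?_ ?_ ?_ hx
    · rintro _ ⟨g, rfl⟩
      exact ⟨bT 2 T' g, (h g).symm⟩
    · intro r
      refine ⟨algebraMap (ZMod 2) (BB 2 T') r, ?_⟩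
      have h2 : ψ.comp (algebraMap (ZMod 2) (BB 2 T)) = j.comp (algebraMap (ZMod 2) (BB 2 T')) := by
        ext x
        obtain rfl | rfl : x = 0 ∨ x = 1 := by
          have : ∀ x : ZMod 2, x = 0 ∨ x = 1 := by decide
          exact this x
        · rw [map_zero, map_zero]
        · rw [map_one, map_one]
      exact (congrArg (fun φ : ZMod 2 →+* F' => φ r) h2).symm
    · intro x y hx hy h1 h2
      change ψ ⟨x + y, (BB 2 T).add_mem hx hy⟩ ∈ j.range
      have h3 : (⟨x + y, (BB 2 T).add_mem hx hy⟩ : BB 2 T) = ⟨x, hx⟩ + ⟨y, hy⟩ := rfl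
      rw [h3, map_add]
      exact add_mem h1 h2
    · intro x y hx hy h1 h2
      change ψ ⟨x * y, (BB 2 T).mul_mem hx hy⟩ ∈ j.range
      have h3 : (⟨x * y, (BB 2 T).mul_mem hx hy⟩ : BB 2 T) = ⟨x, hx⟩ * ⟨y, hy⟩ := rfl
      rw [h3, map_mul]
      exact mul_mem h1 h2
  let e : BB 2 T' ≃+* j.range := RingEquiv.ofBijective j.rangeRestrict
    ⟨fun x y hxy => hj (congrArg Subtype.val hxy), j.rangeRestrict_surjective⟩
  refine ⟨e.symm.toRingHom.comp (ψ.codRestrict j.range h1), fun g => ?_⟩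
  change e.symm ⟨ψ (bT 2 T g), h1 _⟩ = _
  rw [e.symm_apply_eq]
  exact Subtype.ext (h g)

theorem exists_iso (hf : Frc (BB 2 T)) (hf' : Frc (BB 2 T')) (α : BB 2 T →+* BB 2 T')
    (hα : ∀ g, α (bT 2 T g) = bT 2 T' g) (β : BB 2 T' →+* BB 2 T)
    (hβ : ∀ g, β (bT 2 T' g) = bT 2 T g) : ∃ e : K ≃+* K', ∀ g, e (T g) = T' g := by
  have h1 : β.comp α = RingHom.id _ := BB_hom_ext fun g => by
    rw [RingHom.comp_apply, hα, hβ]
    rfl
  have h2 : α.comp β = RingHom.id _ := BB_hom_ext fun g => by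
    rw [RingHom.comp_apply, hβ, hα]
    rfl
  let a : BB 2 T ≃+* BB 2 T' := RingEquiv.ofRingHom α β h2 h1
  have i1 := Pool.Agent.FrNF.isFrac_of_Frc hf
  have i2 := Pool.Agent.FrNF.isFrac_of_Frc hf'
  refine ⟨IsFractionRing.ringEquivOfRingEquiv a, fun g => ?_⟩
  have h3 := IsFractionRing.ringEquivOfRingEquiv_algebraMap (K := K) (L := K') a (bT 2 T g)
  have h4 : a (bT 2 T g) = bT 2 T' g := hα g
  rw [h4] at h3
  exact h3

end

section

variable {Γ K K' F F' : Type} [Group Γ] [Field K] [Field K'] [Field F] [Field F']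
  [Algebra (ZMod 2) K] [Algebra (ZMod 2) K'] [Algebra (ZMod 2) F] [Algebra (ZMod 2) F']
  [Algebra K F] [Algebra K' F'] {T : Γ → K} {T' : Γ → K'}
  {ρ : Γ →* SpecialLinearGroup (Fin 2) F} {ρ' : Γ →* SpecialLinearGroup (Fin 2) F'}

/-- the ring of the traces is contained in the ring of the entries -/
theorem exists_res (hT : ∀ g, (ρ g).1.trace = algebraMap K F (T g)) :
    ∃ r : BB 2 T →+* OO 2 ρ, ∀ g, r (bT 2 T g) =
      ⟨(ρ g).1 0 0, mem_OO ρ g 0 0⟩ + ⟨(ρ g).1 1 1, mem_OO ρ g 1 1⟩ := by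
  have h1 : ∀ x : BB 2 T, algebraMap K F x ∈ (OO 2 ρ).toSubring := by
    rintro ⟨x, hx⟩
    change algebraMap K F x ∈ OO 2 ρ
    induction hx using Algebra.adjoin_induction with
    | mem x hx =>
      obtain ⟨g, rfl⟩ := hx
      rw [← hT, Matrix.trace_fin_two]
      exact add_mem (mem_OO ρ g 0 0) (mem_OO ρ g 1 1)
    | algebraMap r =>
      have h2 : (algebraMap K F).comp (algebraMap (ZMod 2) K) = algebraMap (ZMod 2) F :=
        Subsingleton.elim _ _
      have h3 : algebraMap K F (algebraMap (ZMod 2) K r) = algebraMap (ZMod 2) F r :=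
        congrArg (fun φ : ZMod 2 →+* F => φ r) h2
      rw [h3]
      exact (OO 2 ρ).algebraMap_mem r
    | add x y _ _ hx hy => rw [map_add]; exact add_mem hx hy
    | mul x y _ _ hx hy => rw [map_mul]; exact mul_mem hx hy
  refine ⟨((algebraMap K F).comp (BB 2 T).val.toRingHom).codRestrict (OO 2 ρ).toSubring h1,
    fun g => ?_⟩
  apply Subtype.ext
  change algebraMap K F (T g) = (ρ g).1 0 0 + (ρ g).1 1 1
  rw [← hT, Matrix.trace_fin_two]

/-- a specialisation gives a homomorphism of the rings of the traces -/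
theorem alpha_of (hT : ∀ g, (ρ g).1.trace = algebraMap K F (T g))
    (hT' : ∀ g, (ρ' g).1.trace = algebraMap K' F' (T' g)) (φ : OO 2 ρ →ₐ[ZMod 2] OO 2 ρ')
    (hφ : ∀ g i j, φ ⟨(ρ g).1 i j, mem_OO ρ g i j⟩ = ⟨(ρ' g).1 i j, mem_OO ρ' g i j⟩) :
    ∃ α : BB 2 T →+* BB 2 T', ∀ g, α (bT 2 T g) = bT 2 T' g := by
  obtain ⟨r, hr⟩ := exists_res hT
  refine exists_alpha ((OO 2 ρ').val.toRingHom.comp (φ.toRingHom.comp r))
    ((algebraMap K' F').comp (BB 2 T').val.toRingHom)
    ((algebraMap K' F').injective.comp Subtype.val_injective) ?_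
  intro g
  change ((φ (r (bT 2 T g)) : OO 2 ρ') : F') = algebraMap K' F' (T' g)
  rw [hr, map_add, hφ, hφ, ← hT', Matrix.trace_fin_two]
  rfl

/-- the fields of the traces of two universal representations -/
theorem iso_of (hT : ∀ g, (ρ g).1.trace = algebraMap K F (T g))
    (hT' : ∀ g, (ρ' g).1.trace = algebraMap K' F' (T' g)) (hf : Frc (BB 2 T))
    (hf' : Frc (BB 2 T')) (φ : OO 2 ρ →ₐ[ZMod 2] OO 2 ρ')
    (hφ : ∀ g i j, φ ⟨(ρ g).1 i j, mem_OO ρ g i j⟩ = ⟨(ρ' g).1 i j, mem_OO ρ' g i j⟩)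
    (φ' : OO 2 ρ' →ₐ[ZMod 2] OO 2 ρ)
    (hφ' : ∀ g i j, φ' ⟨(ρ' g).1 i j, mem_OO ρ' g i j⟩ = ⟨(ρ g).1 i j, mem_OO ρ g i j⟩) :
    ∃ e : K ≃+* K', ∀ g, e (T g) = T' g := by
  obtain ⟨α, hα⟩ := alpha_of hT hT' φ hφ
  obtain ⟨β, hβ⟩ := alpha_of hT' hT φ' hφ'
  exact exists_iso hf hf' α hα β hβ

end

end Pool.Agent.SuFin
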