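import Pool.Agent.Lib.MP_305fdd_al.Su.Fin.Main
import Pool.Agent.Lib.MP_305fdd_al.Su.Fin.Cmp
import Pool.Agent.Lib.MP_305fdd_al.Su.CM.Cls

/-!
# MP_305fdd_al, surface groups, block FIN: the groups of the class `Cls b` which occur are free

`free_of_nil`: a group in the class `Cls b` is free if the Cartier operators are nilpotent on an ideal
of the ring of the traces for all finitely generated nonabelian subgroups (Lemma G).
-/

set_option autoImplicit false
set_option linter.unusedSectionVars false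

namespace Pool.Agent.SuFin

open Matrix Pool.Agent.FrN Pool.Agent.FrAsm Pool.Agent.F2RF Pool.Agent.F2Ch Pool.Agent.SuL
  Pool.Agent.SuCM

section

variable {Γ F : Type} [Group Γ] [Field F] [Algebra (ZMod 2) F]
  {ρ : Γ →* SpecialLinearGroup (Fin 2) F}

/-- restriction of a universal representation to a subgroup such that the representations of the
subgroup extend -/
theorem Un.sub (h : Un ρ) {B : Subgroup Γ}
    (hB : ∀ (R : Type) [CommRing R] [Algebra (ZMod 2) R] (r : B →* SpecialLinearGroup (Fin 2) R),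
      ∃ s : Γ →* SpecialLinearGroup (Fin 2) R, ∀ x : B, s x = r x) : Un (ρ.comp B.subtype) := by
  intro R _ _ r
  obtain ⟨s, hs⟩ := hB R r
  obtain ⟨φ, hφ⟩ := h R s
  have hle : OO 2 (ρ.comp B.subtype) ≤ OO 2 ρ := by
    refine Algebra.adjoin_mono ?_
    rintro _ ⟨g, i, j, rfl⟩
    exact ⟨g, i, j, rfl⟩
  refine ⟨φ.comp (Subalgebra.inclusion hle), fun g i j => ?_⟩
  rw [← hs g, ← hφ]
  rfl

theorem NilR.equiv {H H' : Type} [Group H] [Group H'] (f : H ≃* H')
    {r : H →* SpecialLinearGroup (Fin 2) F} {r' : H' →* SpecialLinearGroup (Fin 2) F}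
    (hr : ∀ x, r x = r' (f x)) (h : NilR r') : NilR r := by
  obtain ⟨K, i1, i2, i3, T, hT, hf, hn⟩ := h
  have h1 : BB 2 (fun x => T (f x)) = BB 2 T := by
    unfold BB
    congr 1
    exact f.surjective.range_comp T
  refine ⟨K, i1, i2, i3, fun x => T (f x), fun g => ?_, ?_, ?_⟩
  · rw [hr]
    exact hT _
  · rw [h1]
    exact hf
  · unfold NIL at hn ⊢
    rw [h1]
    exact hn

/-- the conclusion of Lemma G for all finitely generated nonabelian subgroups -/
def NilS (ρ : Γ →* SpecialLinearGroup (Fin 2) F) : Prop :=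
  ∀ H : Subgroup Γ, H.FG → ¬ Ab H → NilR (ρ.comp H.subtype)

theorem NilS.sub (h : NilS ρ) (A : Subgroup Γ) : NilS (ρ.comp A.subtype) := by
  intro H hH hab
  have hinj : Function.Injective A.subtype := A.subtype_injective
  let f : H ≃* H.map A.subtype := H.equivMapOfInjective A.subtype hinj
  have h1 : (H.map A.subtype).FG := by
    obtain ⟨s, hs⟩ := hH
    classical
    refine ⟨s.image A.subtype, ?_⟩
    rw [Finset.coe_image, ← MonoidHom.map_closure, hs]
  have h2 : ¬ Ab (H.map A.subtype) := by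
    intro h3
    apply hab
    intro x y
    apply f.injective
    rw [map_mul, map_mul]
    exact h3 _ _
  exact NilR.equiv f (fun x => rfl) (h _ h1 h2)

theorem NilS.top (h : NilS ρ) (hfg : Group.FG Γ) (hab : ¬ Ab Γ) : NilR ρ := by
  refine NilR.equiv (Subgroup.topEquiv (G := Γ)).symm (fun x => rfl) (h ⊤ ?_ ?_)
  · exact Group.fg_def.mp hfg
  · intro h1
    apply hab
    intro x y
    exact congrArg Subtype.val (h1 ⟨x, trivial⟩ ⟨y, trivial⟩)

/-- the ring of the entries of the universal representation does not depend on the choice -/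
theorem exists_spec (h : Un ρ) {F' : Type} [Field F'] [Algebra (ZMod 2) F']
    (ρ' : Γ →* SpecialLinearGroup (Fin 2) F') :
    ∃ φ : OO 2 ρ →ₐ[ZMod 2] OO 2 ρ', ∀ g i j,
      φ ⟨(ρ g).1 i j, mem_OO ρ g i j⟩ = ⟨(ρ' g).1 i j, mem_OO ρ' g i j⟩ :=
  h (OO 2 ρ') (SuCM.rO ρ')

end

/-- A GROUP OF THE CLASS `Cls b` IS FREE, if Lemma G holds for its finitely generated nonabelian
subgroups. -/
theorem free_of_nil : ∀ (b : ℕ) (Γ F : Type) [Group Γ] [Field F] [Algebra (ZMod 2) F]
    (ρ : Γ →* SpecialLinearGroup (Fin 2) F), InCls b Γ → Un ρ → NilS ρ →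
    Nonempty (Γ ≃* FreeGroup (Fin b)) := by
  intro b
  induction b using Nat.strong_induction_on with
  | _ b ih =>
    intro Γ F _ _ _ ρ hΓ hU hN
    by_cases hab : Ab Γ
    · exact FrTop.p_ab b Γ hΓ hab
    by_cases hfi : FI Γ
    · exfalso
      obtain ⟨F₁, i1, i2, ρ₁, hC⟩ := hΓ
      obtain ⟨hb, K₁, i3, i4, i5, T₁, hHB⟩ := FrH.d_HB b Γ F₁ ρ₁ hC hab
      apply fin_nil (⟨hC, hHB, hb, hfi, hab⟩ : Blk b Γ K₁ F₁ T₁ ρ₁)
      obtain ⟨K, j1, j2, j3, T, hT, hf, hn⟩ := hN.top hC.fg hab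
      obtain ⟨φ, hφ⟩ := exists_spec hU ρ₁
      obtain ⟨φ', hφ'⟩ := exists_spec hC.univ ρ
      obtain ⟨e, he⟩ := iso_of hT hHB.tr hf hHB.fracK φ hφ φ' hφ'
      exact nil_iso e (Equiv.refl Γ) he hn
    · unfold FI at hfi
      push Not at hfi
      obtain ⟨A, C, e, hA, hC⟩ := hfi
      obtain ⟨b₁, b₂, hbb, hA', hC'⟩ := FrTop.p_fac b Γ A C hΓ e
      have hb₁ : b₁ ≠ 0 := by
        rintro rfl
        exact hA (have := FrTop.p_zero A hA'; Subgroup.eq_bot_of_subsingleton A)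
      have hb₂ : b₂ ≠ 0 := by
        rintro rfl
        exact hC (have := FrTop.p_zero C hC'; Subgroup.eq_bot_of_subsingleton C)
      have hUA : Un (ρ.comp A.subtype) := hU.sub fun R _ _ r => by
        obtain ⟨s, hs, -⟩ := e.ext R r 1
        exact ⟨s, hs⟩
      have hUC : Un (ρ.comp C.subtype) := hU.sub fun R _ _ r => by
        obtain ⟨s, -, hs⟩ := e.ext R 1 r
        exact ⟨s, hs⟩
      obtain ⟨f⟩ := ih b₁ (by omega) A F _ hA' hUA (hN.sub A)
      obtain ⟨f'⟩ := ih b₂ (by omega) C F _ hC' hUC (hN.sub C)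
      rw [← hbb]
      exact free_of_fd d_free e f f'

/-! ## The class and the universality from points and tangent vectors -/

section

variable {Γ F : Type} [Group Γ] [Field F] [Algebra (ZMod 2) F]
  {ρ : Γ →* SpecialLinearGroup (Fin 2) F}

theorem un_of_rF (h : Uv Γ (FractionRing (OO 2 ρ)) (FrTop.rF ρ)) : Un ρ := by
  intro R _ _ r
  obtain ⟨φ, hφ⟩ := h.univ R r
  obtain ⟨e, he, hbij⟩ := FrTop.exists_back ρ
  let e' : OO 2 (FrTop.rF ρ) ≃ₐ[ZMod 2] OO 2 ρ := AlgEquiv.ofBijective e hbij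
  refine ⟨φ.comp e'.symm.toAlgHom, fun g i j => ?_⟩
  rw [← hφ]
  change φ (e'.symm _) = _
  congr 1
  rw [AlgEquiv.symm_apply_eq]
  exact (he g i j).symm

/-- `inCls_of_pts` for the explicit representation over the field of fractions -/
theorem cls_rF [hfg : Group.FG Γ] {b : ℕ}
    (hinj : Function.Injective ρ) (hD : Algebra.trdeg (ZMod 2) (OO 2 ρ) = (3 * b : ℕ))
    (hab : Nat.card (Γ →* Multiplicative (ZMod 2)) = 2 ^ b) (hp : Pts ρ) (ht : Tng Γ (3 * b)) :
    Cls b Γ (FractionRing (OO 2 ρ)) (FrTop.rF ρ) := by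
  refine cls_of_pts ?_ ?_ ?_ hab ?_ ht
  · rw [injective_iff_map_eq_one]
    intro g hg
    have h1 := Pool.Agent.FrTop.rF_inj ρ hg
    apply hinj
    rw [map_one]
    ext i j
    have h2 := congrArg (fun M : SpecialLinearGroup (Fin 2) (OO 2 ρ) => ((M.1 i j : OO 2 ρ) : F)) h1
    refine h2.trans ?_
    by_cases hij : i = j
    · subst hij
      simp
    · simp [hij]
  · intro x
    obtain ⟨a, b', hb, rfl⟩ := IsFractionRing.div_surjective (A := OO 2 ρ) x
    have hm : ∀ c : OO 2 ρ, algebraMap (OO 2 ρ) (FractionRing (OO 2 ρ)) c ∈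
        OO 2 (Pool.Agent.FrTop.rF ρ) := by
      intro c
      rw [Pool.Agent.FrTop.OO_rF]
      exact ⟨c, rfl⟩
    refine ⟨_, hm a, _, hm b', ?_, ?_⟩
    · have := nonZeroDivisors.ne_zero hb
      simpa using this
    · have := nonZeroDivisors.ne_zero hb
      have h0 : algebraMap (OO 2 ρ) (FractionRing (OO 2 ρ)) b' ≠ 0 := by simpa using this
      rw [div_mul_cancel₀ _ h0]
  · rw [Pool.Agent.FrTop.trdeg_frac, hD]
  · intro κ _ _ _ r
    obtain ⟨φ, hφ⟩ := hp κ r
    obtain ⟨e, he, _⟩ := Pool.Agent.FrTop.exists_back ρ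
    refine ⟨φ.comp e, ?_⟩
    intro g i j
    change φ (e _) = _
    have := he g i j
    rw [← hφ g i j]
    exact congrArg φ this

/-- the class and the universality from points and tangent vectors -/
theorem cls_un_of_pts [Group.FG Γ] {b : ℕ}
    (hinj : Function.Injective ρ) (hD : Algebra.trdeg (ZMod 2) (OO 2 ρ) = (3 * b : ℕ))
    (hab : Nat.card (Γ →* Multiplicative (ZMod 2)) = 2 ^ b) (hp : Pts ρ) (ht : Tng Γ (3 * b)) :
    InCls b Γ ∧ Un ρ := by
  have h := cls_rF hinj hD hab hp ht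
  exact ⟨⟨_, _, _, _, h⟩, un_of_rF h.toUv⟩

/-- A GROUP WITH ENOUGH POINTS AND FEW TANGENT VECTORS IS FREE, if Lemma G holds. -/
theorem free_of_pts [Group.FG Γ] {b : ℕ}
    (hinj : Function.Injective ρ) (hD : Algebra.trdeg (ZMod 2) (OO 2 ρ) = (3 * b : ℕ))
    (hab : Nat.card (Γ →* Multiplicative (ZMod 2)) = 2 ^ b) (hp : Pts ρ) (ht : Tng Γ (3 * b))
    (hN : NilS ρ) : Nonempty (Γ ≃* FreeGroup (Fin b)) := by
  obtain ⟨h1, h2⟩ := cls_un_of_pts hinj hD hab hp ht
  exact free_of_nil b Γ F ρ h1 h2 hN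

end

end Pool.Agent.SuFin
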