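import Pool.Agent.Lib.MP_305fdd_al.Su.Fin.NN
import Pool.Agent.Lib.MP_305fdd_al.Fr.Asm.Rigid
import Pool.Agent.Lib.MP_305fdd_al.Su.L.First

/-!
# MP_305fdd_al, surface groups, block FIN: no nilpotence for the groups in the class `Cls b`

`fin_nil`: for a freely indecomposable nonabelian group in the class `Cls b`, no Cartier operator is
nilpotent on a nonzero ideal of the ring of the traces.
-/

set_option autoImplicit false

namespace Pool.Agent.SuFin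

open Matrix Pool.Agent.FrN Pool.Agent.FrAsm Pool.Agent.F2RF Pool.Agent.SuL

theorem d_T' : D_T := d_T d_DIV FrS.d_NSG d_CNT (FrL.p_lau d_DIV)

/-- the number of all representations -/
theorem hh_cnt {b : ℕ} {Γ K F : Type} [Group Γ] [Field K] [Field F] [Algebra (ZMod 2) K]
    [Algebra (ZMod 2) F] [Algebra K F] {T : Γ → K}
    {ρ : Γ →* SpecialLinearGroup (Fin 2) F} (H : HB 2 b Γ K F T ρ) (k : ℕ) :
    hh Γ k = cnt (K := K) ρ (1 : BB 2 T) k := by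
  obtain ⟨e, -⟩ := p_bij 2 b Γ K F T ρ H (GaloisField 2 k)
  unfold hh cnt
  rw [← Nat.card_congr e]
  have h1 : ∀ φ : OO 2 ρ →ₐ[ZMod 2] GaloisField 2 k,
      ∃ h : algebraMap K F ((1 : BB 2 T) : K) ∈ OO 2 ρ, φ ⟨_, h⟩ ≠ 0 := by
    intro φ
    have h2 : algebraMap K F ((1 : BB 2 T) : K) = 1 := by
      rw [OneMemClass.coe_one, map_one]
    refine ⟨by rw [h2]; exact one_mem _, ?_⟩
    have h3 : (⟨algebraMap K F ((1 : BB 2 T) : K), by rw [h2]; exact one_mem _⟩ : OO 2 ρ) = 1 :=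
      Subtype.ext h2
    rw [h3, map_one]
    exact one_ne_zero
  exact Nat.card_congr (Equiv.subtypeUnivEquiv h1).symm

/-- FIN -/
theorem fin_nil {b : ℕ} {Γ K F : Type} [Group Γ] [Field K] [Field F] [Algebra (ZMod 2) K]
    [Algebra (ZMod 2) F] [Algebra K F] {T : Γ → K}
    {ρ : Γ →* SpecialLinearGroup (Fin 2) F} (h : Blk b Γ K F T ρ) : ¬ NIL T := by
  rintro ⟨Φ, hΦ, c, hc, hc0, hn⟩
  obtain ⟨d, k₀, hd, hk₀, h1⟩ := fin1_of_T t_N d_T' h
  set k : ℕ := k₀ * 2 ^ d with hkdef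
  have hk : 1 ≤ k := Nat.mul_pos hk₀ (by positivity)
  obtain ⟨a, ha⟩ := h1 d k hk dvd_rfl
  obtain ⟨a', ha'⟩ := nn b Γ K F T ρ h.two h.hb Φ hΦ ⟨c, hc, hc0, hn⟩ d k hk (Dvd.intro_left _ rfl)
  rw [← hh_cnt h.hb k, ha] at ha'
  obtain ⟨b', hb'⟩ : ∃ b', b = b' + 2 := ⟨b - 2, by have := h.two; omega⟩
  have hkd : d + 1 ≤ k := by
    have h4 := Nat.lt_two_pow_self (n := d)
    have h5 : 2 ^ d ≤ k := Nat.le_mul_of_pos_left _ hk₀
    omega
  obtain ⟨j, hj⟩ : ∃ j, k = d + 1 + j := ⟨k - (d + 1), by omega⟩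
  have hq0 : (2 : ℤ) ^ k ≠ 0 := by positivity
  set q : ℤ := 2 ^ k with hq
  set C : ℤ := (q ^ 2 - 1) ^ 2 * (q ^ 3 - q) ^ b' with hC
  have h3 : (q ^ 3 - q) ^ b = q * (q * C) := by
    rw [hb', pow_add, hC]
    ring
  rw [h3] at ha'
  have h6 : q * (2 ^ (d + 1) * a + sgn b * d - q * C) = q * (2 ^ (d + 1) * a') := by
    rw [← ha']
    ring
  have h7 := mul_left_cancel₀ hq0 h6
  have h8 : q = 2 ^ (d + 1) * 2 ^ j := by rw [hq, hj, pow_add]
  have h9 : (2 : ℤ) ^ (d + 1) ∣ sgn b * d := by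
    refine ⟨a' - a + 2 ^ j * C, ?_⟩
    have h10 : sgn b * d = 2 ^ (d + 1) * a' - 2 ^ (d + 1) * a + q * C := by
      linarith
    rw [h10, h8]
    ring
  have h6 : (2 : ℤ) ^ (d + 1) ∣ d := by
    have h7 : IsUnit (sgn b) := by
      unfold sgn
      exact (isUnit_one.neg).pow _
    exact (h7.dvd_mul_left).mp h9
  have h8 : 2 ^ (d + 1) ∣ d := by exact_mod_cast h6
  have h9 := Nat.le_of_dvd hd h8
  have h10 := Nat.lt_two_pow_self (n := d)
  rw [pow_succ] at h9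
  omega

end Pool.Agent.SuFin
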