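import Pool.Agent.Lib.MP_305fdd_al.Fr.N.Final

/-!
# MP_305fdd_al, surface groups, block FIN: the number of representations if a Cartier operator is
nilpotent on an ideal

The converse of Theorem N at `y = 1`.
-/

set_option autoImplicit false

namespace Pool.Agent.SuFin

open Pool.Agent.FrN Pool.Agent.F2Ch Pool.Agent.F2RF Pool.Agent.F2TF Pool.Agent.FrNE

set_option maxHeartbeats 4000000 in
/-- If a Cartier operator is nilpotent on a nonzero ideal of the ring of the traces, then the number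
of the representations over the field with `q = 2 ^ k` elements is `(q ^ 3 - q) ^ b` plus
`q * 2 ^ (i + 1) * a` for all `i` such that `2 ^ i` divides `k`. -/
theorem nn (b : ℕ) (Γ K F : Type) [Group Γ] [Field K] [Field F] [Algebra (ZMod 2) K]
    [Algebra (ZMod 2) F] [Algebra K F] (T : Γ → K)
    (ρ : Γ →* Matrix.SpecialLinearGroup (Fin 2) F) (hb : 2 ≤ b) (H : HB 2 b Γ K F T ρ)
    (Φ' : K → K) (hΦ' : LogTy 2 Φ')
    (hnil : ∃ c ∈ BB 2 T, c ≠ 0 ∧ ∀ β ∈ BB 2 T, ∃ e : ℕ, Φ'^[e] (c * β) = 0)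
    (i k : ℕ) (hk : 1 ≤ k) (hik : 2 ^ i ∣ k) :
    ∃ a : ℤ, (cnt (K := K) ρ (1 : BB 2 T) k : ℤ) - ((2 ^ k) ^ 3 - 2 ^ k) ^ b =
      2 ^ k * (2 ^ (i + 1) * a) := by
  have hc2 : CharP K 2 := charP_two K
  obtain ⟨KA, FA, _, _, _, _, _, TA, ρA, f, j, ΦA, Φ, hA, h, HA, hjT, hΦA, hΦ, hcomm, hKF⟩ :=
    t_E b Γ K F T ρ hb H
  have hBfg := H.BB_fg
  have hAfg := HA.BB_fg
  have hjB : ∀ a ∈ BB 2 TA, j a ∈ BB 2 T := by
    intro a ha
    induction ha using Algebra.adjoin_induction with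
    | mem x hx =>
      obtain ⟨w, rfl⟩ := hx
      rw [hjT]
      exact Algebra.subset_adjoin ⟨_, rfl⟩
    | algebraMap r =>
      have h1 : j.comp (algebraMap (ZMod 2) KA) = algebraMap (ZMod 2) K := Subsingleton.elim _ _
      have h2 : j (algebraMap (ZMod 2) KA r) = algebraMap (ZMod 2) K r :=
        congrArg (fun φ : ZMod 2 →+* K => φ r) h1
      rw [h2]
      exact (BB 2 T).algebraMap_mem r
    | add x y _ _ hx hy => rw [map_add]; exact add_mem hx hy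
    | mul x y _ _ hx hy => rw [map_mul]; exact mul_mem hx hy
  -- the nilpotent element for `Φ`
  obtain ⟨cN, hcN, hcN0, hcNn⟩ : ∃ c ∈ BB 2 T, c ≠ 0 ∧ ∀ β ∈ BB 2 T, ∃ e : ℕ,
      Φ^[e] (c * β) = 0 := by
    obtain ⟨u, hu0, hu⟩ := lt_conj hΦ' hΦ
    obtain ⟨c, hc, hc0, hcn⟩ := hnil
    obtain ⟨a, ha, b', hb', hb0, hab⟩ := H.fracK u
    have ha0 : a ≠ 0 := by
      rw [← hab]
      exact mul_ne_zero hu0 hb0
    refine ⟨c * b', mul_mem hc hb', mul_ne_zero hc0 hb0, fun β hβ => ?_⟩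
    obtain ⟨e, he⟩ := hcn (a * β) (mul_mem ha hβ)
    refine ⟨e, ?_⟩
    rw [iter_conj hu0 hu]
    have h5 : u * (c * b' * β) = c * (a * β) := by
      rw [← hab]
      ring
    rw [h5, he, mul_zero]
  -- the lists
  obtain ⟨ws, hws0, hws⟩ := exists_gen HA
  obtain ⟨gs, hgs0, hgs⟩ := exists_gen H
  have hfw0 : ∀ w ∈ ws, T (f w) ≠ 0 := by
    intro w hw h0
    apply hws0 w hw
    apply j.injective
    rw [hjT, h0, map_zero]
  set L : List Γ := ws.map f ++ gs with hL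
  have hL0 : ∀ g ∈ L, T g ≠ 0 := by
    intro g hg
    rcases List.mem_append.mp hg with hg | hg
    · obtain ⟨w, hw, rfl⟩ := List.mem_map.mp hg
      exact hfw0 w hw
    · exact hgs0 g hg
  have hLs : Ideal.span {y | y ∈ L.map (bT 2 T)} = mI T := by
    apply le_antisymm
    · refine Ideal.span_le.mpr ?_
      intro y hy
      obtain ⟨x, _, rfl⟩ := List.mem_map.mp hy
      exact Ideal.subset_span ⟨x, rfl⟩
    · rw [← hgs]
      refine Ideal.span_mono ?_
      intro y hy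
      obtain ⟨x, hx, rfl⟩ := List.mem_map.mp hy
      exact List.mem_map.mpr ⟨x, List.mem_append_right _ hx, rfl⟩
  -- the data at the elements of the lists
  choose! NA hNA0 hNA using fun w (hw : TA w ≠ 0) => cd_data FrNC.t_CD hb HA hΦA hA w hw
  choose! NB hNB0 hNB using fun g (hg : T g ≠ 0) => cd_data FrNC.t_CD hb H hΦ h g hg
  obtain ⟨cF, hcF, hcF0, hcFn⟩ := t_F b KA FA TA ρA hb HA ΦA hΦA
  have hdn : ∀ x : K, x ≠ 0 → ∃ a : BB 2 TA, a ≠ 0 ∧ ∃ b : BB 2 T, j a = b * x := by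
    intro x hx0
    obtain ⟨a, ha0, -, ha⟩ := p_den 2 KA K j (BB 2 TA) (BB 2 T) HA.fracK H.fracK hjB
      (alg_of_trdeg j (3 * b) (by exact_mod_cast HA.trK) (by exact_mod_cast H.trK))
      (⊥ : Submodule (BB 2 TA) KA) (Submodule.span (BB 2 T) {x⁻¹})
      Submodule.fg_bot (Submodule.fg_span_singleton _)
    refine ⟨a, ha0, ?_⟩
    have h1 := ha x⁻¹ (Submodule.subset_span rfl)
    refine ⟨⟨j a * x⁻¹, h1⟩, ?_⟩
    change j a = j a * x⁻¹ * x
    rw [mul_assoc, inv_mul_cancel₀ hx0, mul_one]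
  obtain ⟨c, hc0, hc⟩ := exists_common (A := BB 2 TA)
    ((fun c => ∃ a : BB 2 TA, (c : KA) = cF * a) :: (fun c => ∃ a : BB 2 T, j c = a * cN) ::
      (ws.map (fun w (c : BB 2 TA) => (c : KA) ∈ NA w) ++
        L.map (fun g (c : BB 2 TA) => j c ∈ NB g)))
    (by
      intro P hP c a hPc
      rcases List.mem_cons.mp hP with rfl | hP
      · obtain ⟨a', ha'⟩ := hPc
        refine ⟨a * a', ?_⟩
        change (a : KA) * c = cF * (a * a')
        rw [ha']
        ring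
      rcases List.mem_cons.mp hP with rfl | hP
      · obtain ⟨a', ha'⟩ := hPc
        refine ⟨⟨j a, hjB a a.2⟩ * a', ?_⟩
        change j ((a : KA) * c) = j a * a' * cN
        rw [map_mul, ha']
        ring
      · rcases List.mem_append.mp hP with hP | hP
        · obtain ⟨w, hw, rfl⟩ := List.mem_map.mp hP
          exact (NA w).smul_mem a hPc
        · obtain ⟨g, hg, rfl⟩ := List.mem_map.mp hP
          change j ((a : KA) * c) ∈ NB g
          rw [map_mul]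
          exact (NB g).smul_mem ⟨j a, hjB a a.2⟩ hPc)
    (by
      intro P hP
      rcases List.mem_cons.mp hP with rfl | hP
      · exact ⟨⟨cF, hcF⟩, fun h0 => hcF0 (congrArg Subtype.val h0), 1, by
          change cF = cF * 1
          rw [mul_one]⟩
      rcases List.mem_cons.mp hP with rfl | hP
      · exact hdn cN hcN0
      · rcases List.mem_append.mp hP with hP | hP
        · obtain ⟨w, hw, rfl⟩ := List.mem_map.mp hP
          obtain ⟨x, hx, hx0, hxN⟩ := exists_mem_ring HA.fracK (hNA0 w (hws0 w hw))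
          exact ⟨⟨x, hx⟩, fun h0 => hx0 (congrArg Subtype.val h0), hxN⟩
        · obtain ⟨g, hg, rfl⟩ := List.mem_map.mp hP
          obtain ⟨x, hx, hx0⟩ := Submodule.exists_mem_ne_zero_of_ne_bot (hNB0 g (hL0 g hg))
          obtain ⟨a, ha0, b', hb'⟩ := hdn x hx0
          refine ⟨a, ha0, ?_⟩
          change j a ∈ NB g
          rw [hb']
          exact (NB g).smul_mem b' hx)
  have hcF' : ∃ a : BB 2 TA, (c : KA) = cF * a := hc _ List.mem_cons_self
  have hcN' : ∃ a : BB 2 T, j c = a * cN := hc _ (List.mem_cons_of_mem _ List.mem_cons_self)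
  have hcA : ∀ w ∈ ws, (c : KA) ∈ NA w := fun w hw =>
    hc _ (List.mem_cons_of_mem _ (List.mem_cons_of_mem _
      (List.mem_append_left _ (List.mem_map.mpr ⟨w, hw, rfl⟩))))
  have hcB : ∀ g ∈ L, j c ∈ NB g := fun g hg =>
    hc _ (List.mem_cons_of_mem _ (List.mem_cons_of_mem _
      (List.mem_append_right _ (List.mem_map.mpr ⟨g, hg, rfl⟩))))
  have hcK0 : (c : KA) ≠ 0 := fun h0 => hc0 (Subtype.ext h0)
  have hjc0 : j c ≠ 0 := by
    rw [Ne, map_eq_zero]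
    exact hcK0
  -- the hulls
  obtain ⟨MA, hMA⟩ := FrNA.t_hull 2 KA (BB 2 TA) hAfg HA.fracK ΦA hA c
  obtain ⟨M, hM⟩ := FrNA.t_hull 2 K (BB 2 T) hBfg H.fracK Φ h (j c)
  have hEK := hKF c hcK0 MA M hMA hM ws gs hws0 hgs0 hws hLs
  rw [← hL] at hEK
  -- the free group
  have hnilA : PF hA MA = 1 := by
    have h1 : ∀ x ∈ MA, ∃ e : ℕ, ΦA^[e] x = 0 := by
      apply nil_hull hA hMA
      intro β hβ
      obtain ⟨a, ha⟩ := hcF'
      rw [ha, mul_assoc]
      exact hcFn _ (mul_mem a.2 hβ)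
    obtain ⟨W, hW⟩ := FrNA.t_nucf 2 KA (BB 2 TA) hAfg ΦA hA MA hMA.stb hMA.fg 1 one_ne_zero
    rw [loc_one] at hW
    refine (FrNA.t_nil (ZMod 2) KA (toEnd hA) _ ⟨W, hW⟩).mp ?_
    intro v hv
    obtain ⟨e, he⟩ := h1 v hv
    exact ⟨e, by rw [toEnd_pow]; exact he⟩
  have hnilB : PF h M = 1 := by
    have h1 : ∀ x ∈ M, ∃ e : ℕ, Φ^[e] x = 0 := by
      apply nil_hull h hM
      intro β hβ
      obtain ⟨a, ha⟩ := hcN'
      have h2 : j c * β = cN * (a * β) := by rw [ha]; ring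
      rw [h2]
      exact hcNn _ (mul_mem a.2 hβ)
    obtain ⟨W, hW⟩ := FrNA.t_nucf 2 K (BB 2 T) hBfg Φ h M hM.stb hM.fg 1 one_ne_zero
    rw [loc_one] at hW
    refine (FrNA.t_nil (ZMod 2) K (toEnd h) _ ⟨W, hW⟩).mp ?_
    intro v hv
    obtain ⟨e, he⟩ := h1 v hv
    exact ⟨e, by rw [toEnd_pow]; exact he⟩
  have hcoreA := core HA (finite_pts p_bij HA) hA MA (ws.map (bT 2 TA))
    (by
      intro g hg h0
      obtain ⟨w, hw, rfl⟩ := List.mem_map.mp hg
      exact hws0 w hw (congrArg Subtype.val h0))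
    (by
      intro g hg y hy hyz
      obtain ⟨w, hw, rfl⟩ := List.mem_map.mp hg
      exact hNA w (hws0 w hw) c (hcA w hw) hcK0 MA hMA y hy hyz) 1 one_ne_zero
  obtain ⟨fA, sA, hfA, hPA, hcA'⟩ := hcoreA
  rw [loc_one, hnilA] at hPA
  have hcoreB := core H (finite_pts p_bij H) h M (L.map (bT 2 T))
    (by
      intro g hg h0
      obtain ⟨w, hw, rfl⟩ := List.mem_map.mp hg
      exact hL0 w hw (congrArg Subtype.val h0))
    (by
      intro g hg y hy hyz
      obtain ⟨w, hw, rfl⟩ := List.mem_map.mp hg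
      exact hNB w (hL0 w hw) (j c) (hcB w hw) hjc0 M hM y hy hyz) 1 one_ne_zero
  obtain ⟨fB, sB, hfB, hPB, hcB'⟩ := hcoreB
  rw [loc_one, hnilB] at hPB
  have hred : red 2 (fA⁻¹ * fB) = red 2 1 := by
    rw [map_mul, map_inv, map_one, hEK] at *
    have h1 : red 2 fA = (KF hA (ws.map (bT 2 TA)) MA)⁻¹ := by
      rw [eq_comm, inv_eq_iff_mul_eq_one, ← hPA]
    have h2 : red 2 fB = (KF hA (ws.map (bT 2 TA)) MA)⁻¹ := by
      rw [eq_comm, inv_eq_iff_mul_eq_one, ← hPB]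
    rw [h1, h2, inv_mul_cancel]
  have hLD1 : LD ((1 : (PowerSeries ℤ)ˣ) : PowerSeries ℤ) (fun _ => 0) := by
    have h1 := ld_mul (ld_inv hfA) hfA
    rw [inv_mul_cancel] at h1
    simpa using h1
  have hs := FrNA.t_ldmod 2 (fA⁻¹ * fB) 1 (fun k => - sA k + sB k) (fun _ => 0)
    (ld_mul (ld_inv hfA) hfB) hLD1 hred k i hk hik
  obtain ⟨t, ht⟩ := hs
  -- the counts
  obtain ⟨aA, haA⟩ := hcA' k hk
  obtain ⟨aB, haB⟩ := hcB' k hk
  have hfinA := finite_pts p_bij HA k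
  have hfinB := finite_pts p_bij H k
  have huA := ncard_UU p_bij p_uni HA k hk
  have huB := ncard_UU p_bij p_uni H k hk
  have h1 : VV ρA (GaloisField 2 k) ((1 : BB 2 TA) : KA) ∩
      WW ρA (GaloisField 2 k) (ws.map (bT 2 TA)) = (UU HA k)ᶜ := by
    ext φ
    rw [Set.mem_inter_iff, Set.mem_compl_iff, ← not_mem_WW HA k ws hws, not_not, mem_VV' HA,
      map_one, map_one]
    simp
  have h2 : VV ρ (GaloisField 2 k) ((1 : BB 2 T) : K) ∩
      WW ρ (GaloisField 2 k) (L.map (bT 2 T)) = (UU H k)ᶜ := by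
    ext φ
    rw [Set.mem_inter_iff, Set.mem_compl_iff, ← not_mem_WW H k L hLs, not_not, mem_VV' H,
      map_one, map_one]
    simp
  rw [h1] at haA
  rw [h2] at haB
  have h4 := Set.ncard_add_ncard_compl (UU HA k)
  have h5 := Set.ncard_add_ncard_compl (UU H k)
  have h6 : Nat.card (OO 2 ρA →ₐ[ZMod 2] GaloisField 2 k) =
      ((2 ^ k) ^ 3 - 2 ^ k) ^ b := by
    obtain ⟨e, -⟩ := p_bij 2 b _ KA FA TA ρA HA (GaloisField 2 k)
    rw [Nat.card_congr e]
    exact p_free b k (GaloisField 2 k) hk (GaloisField.card 2 k (by omega))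
  have h7 : (((2 ^ k) ^ 3 - 2 ^ k : ℕ) : ℤ) = (2 ^ k) ^ 3 - 2 ^ k := by
    rw [Nat.cast_sub (by
      calc 2 ^ k = (2 ^ k) ^ 1 := (pow_one _).symm
        _ ≤ (2 ^ k) ^ 3 := Nat.pow_le_pow_right (Nat.two_pow_pos k) (by norm_num))]
    push_cast
    ring
  have h8 : (((2 : ℤ) ^ k) ^ 3 - 2 ^ k) ^ b =
      ((UU HA k).ncard : ℤ) + ((UU HA k)ᶜ.ncard : ℤ) := by
    rw [← h7, ← Nat.cast_pow, ← h6, ← h4]
    push_cast
    ring
  have h10 : VV ρ (GaloisField 2 k) ((1 : BB 2 T) : K) = Set.univ := by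
    ext φ
    rw [mem_VV' H, map_one, map_one]
    simp
  have h9 : (cnt (K := K) ρ (1 : BB 2 T) k : ℤ) =
      ((UU H k)ᶜ.ncard : ℤ) + ((UU H k).ncard : ℤ) := by
    have h11 : cnt (K := K) ρ (1 : BB 2 T) k =
        (VV ρ (GaloisField 2 k) ((1 : BB 2 T) : K)).ncard := cnt_eq _ _ _
    rw [h11, h10, Set.ncard_univ, ← h5]
    push_cast
    ring
  have hle := le_two_pow (k₀ := 1) hk (by rw [one_mul]; exact hik)
  have h5' : (2 : ℤ) ^ k = 2 ^ (i + 1) * 2 ^ (k - (i + 1)) := by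
    rw [← pow_add]
    congr 1
    omega
  refine ⟨(aB - aA) * 2 ^ (k - (i + 1)) + sgn b * t, ?_⟩
  have h12 : - sA k + sB k = 2 ^ (i + 1) * t := by
    have : ((2 : ℕ) : ℤ) ^ (i + 1) = 2 ^ (i + 1) := by norm_num
    rw [this] at ht
    linarith
  have h13 : (cnt (K := K) ρ (1 : BB 2 T) k : ℤ) - ((2 ^ k) ^ 3 - 2 ^ k) ^ b =
      2 ^ k * (2 ^ k * (aB - aA) + sgn b * (- sA k + sB k)) := by
    rw [h8, h9, haA, haB, huA, huB]
    ring
  rw [h13, h12]
  congr 1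
  rw [h5']
  ring

end Pool.Agent.SuFin
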